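import Pool.Agent.W_7d29a1_SR.Scale
import Pool.Agent.W_7d29a1_L78.RowA

/-!
STORM X (power superconcentration, MP_7d29a1_pr), the outside input of (NL): the free energy compared with the glued
functional, in which the rows of the two slabs are removed. (helper5)
-/

namespace Pool.Agent.W_7d29a1_XG

open MeasureTheory ProbabilityTheory Filter Topology
open Pool.Agent.W_7d29a1_F Pool.Agent.W_7d29a1_h4g Pool.Agent.W_7d29a1_G Pool.Agent.W_7d29a1_L78

noncomputable section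

variable {μ : Measure ℝ}

/-- The partition function of the polymers of the duration `a + l + r` with the rows `(a, a + l]` removed. -/
def glue (μ : Measure ℝ) (η : Env) (a l r : ℕ) : ℝ :=
  ∑ x ∈ Finset.Icc (0 : ℤ) a, W μ 0 η 0 a x * Real.exp (V μ 0 η ((a : ℤ) + l, x + md l) r)

/-- The environment with the rows `(a, a + l]` removed. -/
def gm (a l : ℕ) (η : Env) : Env := fun p => η (if p.1 ≤ (a : ℤ) then p else (p.1 + l, p.2 + md l))

/-- `- E V_n`. -/
def bb (μ : Measure ℝ) (n : ℕ) : ℝ := -∫ η, V μ 0 η 0 n ∂(law μ)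

/-- The weights of the glued functional. -/
def gw (μ : Measure ℝ) (η : Env) (a l r : ℕ) (x : ℤ) : ℝ :=
  W μ 0 η 0 a x * Real.exp (V μ 0 η ((a : ℤ) + l, x + md l) r)

theorem gw_nonneg (η : Env) (a l r : ℕ) (x : ℤ) : 0 ≤ gw μ η a l r x :=
  mul_nonneg (W_nonneg _ _ _ _) (Real.exp_pos _).le

theorem glue_eq (η : Env) (a l r : ℕ) : glue μ η a l r = ∑ x ∈ Finset.Icc (0 : ℤ) a, gw μ η a l r x := rfl

theorem glue_pos (η : Env) (a l r : ℕ) : 0 < glue μ η a l r := by
  rw [glue_eq]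
  refine lt_of_lt_of_le (mul_pos (W_pos (μ := μ) (s := 0) η 0 le_rfl (Int.natCast_nonneg a)) (Real.exp_pos _))
    (Finset.single_le_sum (f := fun x => gw μ η a l r x) (fun x _ => gw_nonneg η a l r x)
      (Finset.mem_Icc.2 ⟨le_rfl, Int.natCast_nonneg a⟩))

theorem gw_le (η : Env) (a l r : ℕ) {x : ℤ} (hx : x ∈ Finset.Icc (0 : ℤ) a) :
    gw μ η a l r x / glue μ η a l r ≤ 1 := by
  rw [div_le_one (glue_pos η a l r), glue_eq]
  exact Finset.single_le_sum (f := fun x => gw μ η a l r x) (fun x _ => gw_nonneg η a l r x) hx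

/-- The glued functional is the free energy of the glued environment. -/
theorem exp_V_gm (η : Env) (a l r : ℕ) : Real.exp (V μ 0 (gm a l η) 0 (a + r)) = glue μ η a l r := by
  rw [exp_V_add, glue]
  refine Finset.sum_congr rfl fun x _ => ?_
  have h1 : W μ 0 (gm a l η) 0 a x = W μ 0 η 0 a x := by
    refine W_dep_rows (μ := μ) (s := 0) 0 a x fun p hp => ?_
    have h2 : p.1 ≤ (a : ℤ) := by
      have := hp.2
      simpa using this
    show η (if p.1 ≤ (a : ℤ) then p else (p.1 + l, p.2 + md l)) = η p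
    rw [if_pos h2]
  have h2 : V μ 0 (gm a l η) ((0 : Pt).1 + (a : ℤ), (0 : Pt).2 + x) r =
      V μ 0 (sh ((l : ℤ), md l) η) ((0 : Pt).1 + (a : ℤ), (0 : Pt).2 + x) r := by
    refine V_dep_rows (μ := μ) (s := 0) _ r fun p hp => ?_
    have h3 : ¬p.1 ≤ (a : ℤ) := by
      have := hp.1
      simpa using this
    show η (if p.1 ≤ (a : ℤ) then p else (p.1 + l, p.2 + md l)) = η (p + ((l : ℤ), md l))
    rw [if_neg h3]
    rfl
  rw [h1, h2, V_sh]
  congr 3
  ext
  · show (0 : ℤ) + a + l = a + l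
    ring
  · show (0 : ℤ) + x + md l = x + md l
    ring

theorem log_glue (η : Env) (a l r : ℕ) : Real.log (glue μ η a l r) = V μ 0 (gm a l η) 0 (a + r) := by
  rw [← exp_V_gm, Real.log_exp]

theorem measurable_gw (a l r : ℕ) (x : ℤ) : Measurable fun η => gw μ η a l r x :=
  (measurable_W 0 a x).mul (Real.measurable_exp.comp (measurable_V _ r))

theorem measurable_glue (a l r : ℕ) : Measurable fun η => glue μ η a l r :=
  Finset.measurable_sum _ fun x _ => measurable_gw a l r x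

variable [IsProbabilityMeasure μ]

theorem gm_inj (a l : ℕ) : Function.Injective (fun p : Pt => if p.1 ≤ (a : ℤ) then p else (p.1 + l, p.2 + md l)) := by
  intro p q h
  simp only at h
  by_cases hp : p.1 ≤ (a : ℤ)
  · by_cases hq : q.1 ≤ (a : ℤ)
    · rwa [if_pos hp, if_pos hq] at h
    · rw [if_pos hp, if_neg hq] at h
      have h1 : p.1 = q.1 + l := congrArg Prod.fst h
      omega
  · by_cases hq : q.1 ≤ (a : ℤ)
    · rw [if_neg hp, if_pos hq] at h
      have h1 : p.1 + l = q.1 := congrArg Prod.fst h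
      omega
    · rw [if_neg hp, if_neg hq] at h
      have h1 : p.1 + l = q.1 + l := congrArg Prod.fst h
      have h2 : p.2 + md l = q.2 + md l := congrArg Prod.snd h
      exact Prod.ext (by omega) (by omega)

theorem mp_gm (a l : ℕ) : MeasurePreserving (gm a l) (law μ) (law μ) :=
  mp_reindex (μ := μ) (fun p : Pt => if p.1 ≤ (a : ℤ) then p else (p.1 + l, p.2 + md l)) (gm_inj a l)

/-- The law of the glued functional. -/
theorem integral_glue {f : ℝ → ℝ} (hf : Measurable f) (a l r : ℕ) :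
    ∫ η, f (Real.log (glue μ η a l r)) ∂(law μ) = ∫ η, f (V μ 0 η 0 (a + r)) ∂(law μ) := by
  simp only [log_glue]
  exact Pool.Agent.W_7d29a1_f21.mp_integral (mp_gm (μ := μ) a l)
    (F := fun η : Env => f (V μ 0 η 0 (a + r))) (hf.comp (measurable_V 0 (a + r))).aestronglyMeasurable

omit [IsProbabilityMeasure μ] in
theorem Sub_glue (a l r : ℕ) : Sub fun η => Real.log (glue μ η a l r) := by
  classical
  obtain ⟨hm, F, D, hD, hF⟩ := Sub_V (μ := μ) (s := 0) 0 (a + r)
  refine ⟨(measurable_glue a l r).log, F.image fun p : Pt => if p.1 ≤ (a : ℤ) then p else (p.1 + l, p.2 + md l), D, hD,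
    fun η => ?_⟩
  rw [Finset.sum_image fun p _ q _ h => gm_inj a l h]
  show |Real.log (glue μ η a l r)| ≤ _
  rw [log_glue]
  exact hF (gm a l η)

/-- (G1) -/
theorem mean_glue (a l r : ℕ) :
    ∫ η, Real.log (glue μ η a l r) ∂(law μ) = -bb μ (a + r) := by
  have h := integral_glue (μ := μ) (f := fun x => x) measurable_id a l r
  rw [bb, neg_neg]
  exact h

omit [IsProbabilityMeasure μ] in
/-- The free energy of all rows is at least the glued functional minus the mean cost of the straight crossing of the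
removed slab, with weights which do not depend on it. -/
theorem glue_jensen (η : Env) (a l r : ℕ) :
    Real.log (glue μ η a l r) - V μ 0 η 0 (a + (l + r)) ≤
      ∑ x ∈ Finset.Icc (0 : ℤ) a, gw μ η a l r x / glue μ η a l r * max (X μ 0 η ((a : ℤ), x) l (md l)) 0 := by
  obtain ⟨S, hS⟩ : ∃ S : ℝ, S = glue μ η a l r := ⟨_, rfl⟩
  have hS0 : 0 < S := hS ▸ glue_pos η a l r
  obtain ⟨g, hg⟩ : ∃ g : ℤ → ℝ, g = fun x => gw μ η a l r x := ⟨_, rfl⟩
  have hg0 : ∀ x, 0 ≤ g x := fun x => by rw [hg]; exact gw_nonneg η a l r x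
  have hgS : ∑ x ∈ Finset.Icc (0 : ℤ) a, g x = S := by rw [hg, hS]; rfl
  obtain ⟨u, hu⟩ : ∃ u : ℤ → ℝ, u = fun x => max (X μ 0 η ((a : ℤ), x) l (md l)) 0 := ⟨_, rfl⟩
  obtain ⟨M, hM⟩ : ∃ M : ℝ, M = ∑ x ∈ Finset.Icc (0 : ℤ) a, g x / S * u x := ⟨_, rfl⟩
  have hMS : ∑ x ∈ Finset.Icc (0 : ℤ) a, g x * u x = M * S := by
    rw [hM, Finset.sum_mul]
    refine Finset.sum_congr rfl fun x _ => ?_
    field_simp
  have h1 : S * Real.exp (-M) ≤ Real.exp (V μ 0 η 0 (a + (l + r))) := by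
    rw [exp_V_add]
    have h2 : ∀ x ∈ Finset.Icc (0 : ℤ) a, Real.exp (-M) * (g x * (1 + M - u x)) ≤
        W μ 0 η 0 a x * Real.exp (V μ 0 η ((0 : Pt).1 + (a : ℤ), (0 : Pt).2 + x) (l + r)) := by
      intro x _
      have h3 : Real.exp (-M) * (1 + M - u x) ≤ Real.exp (-u x) := by
        have h4 := Real.add_one_le_exp (M - u x)
        have h5 : Real.exp (-u x) = Real.exp (-M) * Real.exp (M - u x) := by
          rw [← Real.exp_add]
          congr 1
          ring
        rw [h5]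
        exact mul_le_mul_of_nonneg_left (by linarith) (Real.exp_pos _).le
      have h6 : Real.exp (-u x) * Real.exp (V μ 0 η ((a : ℤ) + l, x + md l) r) ≤
          Real.exp (V μ 0 η ((0 : Pt).1 + (a : ℤ), (0 : Pt).2 + x) (l + r)) := by
        rw [← Real.exp_add, Real.exp_le_exp]
        have h7 := V_add_ge (μ := μ) (s := 0) η ((0 : Pt).1 + (a : ℤ), (0 : Pt).2 + x) l r (md_nonneg l) (md_le l)
        have h8 : (((0 : Pt).1 + (a : ℤ), (0 : Pt).2 + x) : Pt) = ((a : ℤ), x) := by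
          ext
          · show (0 : ℤ) + a = a
            ring
          · show (0 : ℤ) + x = x
            ring
        rw [h8] at h7 ⊢
        have h9 : X μ 0 η ((a : ℤ), x) l (md l) ≤ u x := by rw [hu]; exact le_max_left _ _
        simp only at h7 ⊢
        linarith
      calc Real.exp (-M) * (g x * (1 + M - u x)) = g x * (Real.exp (-M) * (1 + M - u x)) := by ring
        _ ≤ g x * Real.exp (-u x) := mul_le_mul_of_nonneg_left h3 (hg0 x)
        _ = W μ 0 η 0 a x * (Real.exp (-u x) * Real.exp (V μ 0 η ((a : ℤ) + l, x + md l) r)) := by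
            rw [hg]
            show W μ 0 η 0 a x * Real.exp (V μ 0 η ((a : ℤ) + l, x + md l) r) * Real.exp (-u x) = _
            ring
        _ ≤ _ := mul_le_mul_of_nonneg_left h6 (W_nonneg _ _ _ _)
    refine le_trans (le_of_eq ?_) (Finset.sum_le_sum h2)
    rw [← Finset.mul_sum]
    have h3 : ∑ x ∈ Finset.Icc (0 : ℤ) a, g x * (1 + M - u x) = S := by
      have h4 : ∀ x, g x * (1 + M - u x) = (1 + M) * g x - g x * u x := fun x => by ring
      simp only [h4]
      rw [Finset.sum_sub_distrib, ← Finset.mul_sum, hgS, hMS]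
      ring
    rw [h3]
    ring
  have h2 := Real.log_le_log (mul_pos hS0 (Real.exp_pos _)) h1
  rw [Real.log_mul hS0.ne' (Real.exp_pos _).ne', Real.log_exp, Real.log_exp] at h2
  have h3 : M = ∑ x ∈ Finset.Icc (0 : ℤ) a, gw μ η a l r x / glue μ η a l r *
      max (X μ 0 η ((a : ℤ), x) l (md l)) 0 := by
    rw [hM, hg, hS, hu]
  rw [← h3, ← hS]
  linarith

/-- The integral of the weighted mean cost of the slab. -/
theorem slab_mean (hEM : Pool.Agent.W_7d29a1_h47.EM μ) (a l r : ℕ) :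
    Integrable (fun η => ∑ x ∈ Finset.Icc (0 : ℤ) a, gw μ η a l r x / glue μ η a l r *
      max (X μ 0 η ((a : ℤ), x) l (md l)) 0) (law μ) ∧
    ∫ η, ∑ x ∈ Finset.Icc (0 : ℤ) a, gw μ η a l r x / glue μ η a l r *
      max (X μ 0 η ((a : ℤ), x) l (md l)) 0 ∂(law μ) = ep μ l (md l) := by
  obtain ⟨q, hq⟩ : ∃ q : ℤ → Env → ℝ, q = fun x η => gw μ η a l r x / glue μ η a l r := ⟨_, rfl⟩
  have hqm : ∀ x, Measurable (q x) := fun x => by rw [hq]; exact (measurable_gw a l r x).div (measurable_glue a l r)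
  have hq0 : ∀ x η, 0 ≤ q x η := fun x η => by
    rw [hq]
    exact div_nonneg (gw_nonneg η a l r x) (glue_pos η a l r).le
  have hqS : ∀ x ∈ Finset.Icc (0 : ℤ) a, Sub (q x) := fun x hx => Pool.Agent.W_7d29a1_h60.Sub_bdd (hqm x) fun η => by
    rw [abs_of_nonneg (hq0 x η), hq]
    exact gw_le η a l r hx
  have hqd : ∀ x, DependsOn (q x) (rows 0 a ∪ rows ((a : ℤ) + l) ((a : ℤ) + l + r)) := by
    intro x η η' h
    have h1 : ∀ y : ℤ, gw μ η a l r y = gw μ η' a l r y := by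
      intro y
      unfold gw
      have h2 : W μ 0 η 0 a y = W μ 0 η' 0 a y := W_dep_rows (μ := μ) (s := 0) 0 a y fun p hp => h p (Or.inl (by
        have h3 : rows (0 : Pt).1 ((0 : Pt).1 + a) ⊆ rows 0 a := rows_mono le_rfl (by
          show (0 : ℤ) + a ≤ a
          omega)
        exact h3 hp))
      have h3 : V μ 0 η ((a : ℤ) + l, y + md l) r = V μ 0 η' ((a : ℤ) + l, y + md l) r :=
        V_dep_rows (μ := μ) (s := 0) _ r fun p hp => h p (Or.inr hp)
      rw [h2, h3]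
    rw [hq]
    show gw μ η a l r x / glue μ η a l r = gw μ η' a l r x / glue μ η' a l r
    rw [glue_eq, glue_eq, h1 x]
    simp only [h1]
  have hXd : ∀ x : ℤ, DependsOn (fun η : Env => max (X μ 0 η ((a : ℤ), x) l (md l)) 0) (rows a ((a : ℤ) + l)) := by
    intro x η η' h
    have h1 : X μ 0 η ((a : ℤ), x) l (md l) = X μ 0 η' ((a : ℤ), x) l (md l) :=
      X_dep_rows (μ := μ) (s := 0) ((a : ℤ), x) l (md l) h
    show max (X μ 0 η ((a : ℤ), x) l (md l)) 0 = max (X μ 0 η' ((a : ℤ), x) l (md l)) 0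
    rw [h1]
  have hdis : Disjoint (rows 0 a ∪ rows ((a : ℤ) + l) ((a : ℤ) + l + r)) (rows a ((a : ℤ) + l)) :=
    Set.disjoint_union_left.2 ⟨rows_disj le_rfl, (rows_disj le_rfl).symm⟩
  have hXS : ∀ x : ℤ, Sub fun η : Env => max (X μ 0 η ((a : ℤ), x) l (md l)) 0 := fun x =>
    Sub_Xp _ (md_nonneg l) (md_le l)
  have hint : ∀ x ∈ Finset.Icc (0 : ℤ) a, Integrable (fun η => q x η * max (X μ 0 η ((a : ℤ), x) l (md l)) 0) (law μ) :=
    fun x hx => Sub.mul_integrable hEM (hqS x hx) (hXS x)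
  have he : (fun η => ∑ x ∈ Finset.Icc (0 : ℤ) a, gw μ η a l r x / glue μ η a l r *
      max (X μ 0 η ((a : ℤ), x) l (md l)) 0) = fun η => ∑ x ∈ Finset.Icc (0 : ℤ) a, q x η *
        max (X μ 0 η ((a : ℤ), x) l (md l)) 0 := by rw [hq]
  rw [he]
  refine ⟨integrable_finsetSum _ hint, ?_⟩
  rw [integral_finsetSum _ hint]
  have h1 : ∀ x ∈ Finset.Icc (0 : ℤ) a, ∫ η, q x η * max (X μ 0 η ((a : ℤ), x) l (md l)) 0 ∂(law μ) =
      (∫ η, q x η ∂(law μ)) * ep μ l (md l) := by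
    intro x _
    rw [integral_indep (hqm x) (hXS x).1 (hqd x) (hXd x) hdis, integral_Xp]
    rfl
  rw [Finset.sum_congr rfl h1, ← Finset.sum_mul, ← integral_finsetSum _ fun x hx => (hqS x hx).integrable hEM]
  have h2 : ∀ η, ∑ x ∈ Finset.Icc (0 : ℤ) a, q x η = 1 := fun η => by
    rw [hq]
    show ∑ x ∈ Finset.Icc (0 : ℤ) a, gw μ η a l r x / glue μ η a l r = 1
    rw [← Finset.sum_div, ← glue_eq, div_self (glue_pos η a l r).ne']
  simp only [h2]
  simp

/-- (G2) -/
theorem below_glue (hEM : Pool.Agent.W_7d29a1_h47.EM μ) (a l r : ℕ) :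
    ∫ η, max (Real.log (glue μ η a l r) - V μ 0 η 0 (a + (l + r))) 0 ∂(law μ) ≤ ep μ l (md l) := by
  obtain ⟨hi, hv⟩ := slab_mean (μ := μ) hEM a l r
  rw [← hv]
  refine integral_mono ((((Sub_glue a l r).sub (Sub_V 0 _)).max (Sub.const 0)).integrable hEM) hi fun η => ?_
  refine max_le (glue_jensen η a l r) (Finset.sum_nonneg fun x _ => ?_)
  exact mul_nonneg (div_nonneg (gw_nonneg η a l r x) (glue_pos η a l r).le) (le_max_right _ _)

/-- (G3) -/
theorem above_glue (hEM : Pool.Agent.W_7d29a1_h47.EM μ) (a l r : ℕ) :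
    ∫ η, max (V μ 0 η 0 (a + (l + r)) - Real.log (glue μ η a l r)) 0 ∂(law μ) ≤
      bb μ (a + r) - bb μ (a + (l + r)) + ep μ l (md l) := by
  have h1 := below_glue (μ := μ) hEM a l r
  have h2 : ∀ η : Env, max (V μ 0 η 0 (a + (l + r)) - Real.log (glue μ η a l r)) 0 =
      (V μ 0 η 0 (a + (l + r)) - Real.log (glue μ η a l r)) +
        max (Real.log (glue μ η a l r) - V μ 0 η 0 (a + (l + r))) 0 := by
    intro η
    rcases le_total (Real.log (glue μ η a l r)) (V μ 0 η 0 (a + (l + r))) with h | h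
    · rw [max_eq_left (by linarith), max_eq_right (by linarith), add_zero]
    · rw [max_eq_right (by linarith), max_eq_left (by linarith)]
      ring
  simp only [h2]
  have i1 : Integrable (fun η => V μ 0 η 0 (a + (l + r)) - Real.log (glue μ η a l r)) (law μ) :=
    ((Sub_V 0 _).sub (Sub_glue a l r)).integrable hEM
  have i2 : Integrable (fun η => max (Real.log (glue μ η a l r) - V μ 0 η 0 (a + (l + r))) 0) (law μ) :=
    (((Sub_glue a l r).sub (Sub_V 0 _)).max (Sub.const 0)).integrable hEM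
  rw [integral_add i1 i2, integral_sub ((Sub_V 0 _).integrable hEM) ((Sub_glue a l r).integrable hEM), mean_glue]
  unfold bb at h1 ⊢
  linarith

/-- The free energy is rarely much larger than the glued functional. -/
theorem above_prob (hEM : Pool.Agent.W_7d29a1_h47.EM μ) (a l r : ℕ) {Y : ℝ} (hY : 0 < Y) :
    (law μ).real {η | Real.log (glue μ η a l r) + Y ≤ V μ 0 η 0 (a + (l + r))} ≤
      (bb μ (a + r) - bb μ (a + (l + r)) + ep μ l (md l)) / Y := by
  have h1 := above_glue (μ := μ) hEM a l r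
  have i1 : Integrable (fun η => max (V μ 0 η 0 (a + (l + r)) - Real.log (glue μ η a l r)) 0) (law μ) :=
    (((Sub_V 0 _).sub (Sub_glue a l r)).max (Sub.const 0)).integrable hEM
  have h2 := mul_meas_ge_le_integral_of_nonneg (μ := law μ)
    (f := fun η => max (V μ 0 η 0 (a + (l + r)) - Real.log (glue μ η a l r)) 0)
    (Filter.Eventually.of_forall fun η => le_max_right _ _) i1 Y
  rw [le_div_iff₀ hY, mul_comm]
  refine le_trans ?_ (h2.trans h1)
  refine mul_le_mul_of_nonneg_left (measureReal_mono (fun η hη => ?_) (measure_ne_top _ _)) hY.le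
  rw [Set.mem_ofPred_eq] at hη ⊢
  exact le_trans (by linarith) (le_max_left _ _)

/-- The glued functional is rarely much larger than the free energy. -/
theorem below_prob (hEM : Pool.Agent.W_7d29a1_h47.EM μ) (a l r : ℕ) {Y : ℝ} (hY : 0 < Y) :
    (law μ).real {η | V μ 0 η 0 (a + (l + r)) + Y ≤ Real.log (glue μ η a l r)} ≤ ep μ l (md l) / Y := by
  have h1 := below_glue (μ := μ) hEM a l r
  have i1 : Integrable (fun η => max (Real.log (glue μ η a l r) - V μ 0 η 0 (a + (l + r))) 0) (law μ) :=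
    (((Sub_glue a l r).sub (Sub_V 0 _)).max (Sub.const 0)).integrable hEM
  have h2 := mul_meas_ge_le_integral_of_nonneg (μ := law μ)
    (f := fun η => max (Real.log (glue μ η a l r) - V μ 0 η 0 (a + (l + r))) 0)
    (Filter.Eventually.of_forall fun η => le_max_right _ _) i1 Y
  rw [le_div_iff₀ hY, mul_comm]
  refine le_trans ?_ (h2.trans h1)
  refine mul_le_mul_of_nonneg_left (measureReal_mono (fun η hη => ?_) (measure_ne_top _ _)) hY.le
  rw [Set.mem_ofPred_eq] at hη ⊢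
  exact le_trans (by linarith) (le_max_left _ _)

omit [IsProbabilityMeasure μ] in
/-- (G4) A site which carries the glued functional up to a logarithm. -/
theorem glue_site (η : Env) (a l r : ℕ) : ∃ x ∈ Finset.Icc (0 : ℤ) a,
    Real.log (glue μ η a l r) - Real.log (a + 1) ≤ -X μ 0 η 0 a x + V μ 0 η ((a : ℤ) + l, x + md l) r := by
  obtain ⟨x, hx, hmax⟩ := Finset.exists_max_image (Finset.Icc (0 : ℤ) a) (fun x => gw μ η a l r x)
    ⟨0, Finset.mem_Icc.2 ⟨le_rfl, Int.natCast_nonneg a⟩⟩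
  refine ⟨x, hx, ?_⟩
  have h1 : glue μ η a l r ≤ (a + 1) * gw μ η a l r x := by
    rw [glue_eq]
    refine (Finset.sum_le_card_nsmul _ _ _ hmax).trans (le_of_eq ?_)
    rw [Int.card_Icc, nsmul_eq_mul]
    congr 1
    rw [sub_zero]
    have : ((a : ℤ) + 1).toNat = a + 1 := by omega
    rw [this]
    push_cast
    ring
  have ha : (0 : ℝ) < a + 1 := by positivity
  rw [Finset.mem_Icc] at hx
  have h2 : 0 < W μ 0 η 0 a x := W_pos η 0 hx.1 hx.2
  have h3 := Real.log_le_log (glue_pos η a l r) h1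
  unfold gw at h3
  rw [Real.log_mul ha.ne' (mul_pos h2 (Real.exp_pos _)).ne', Real.log_mul h2.ne' (Real.exp_pos _).ne', Real.log_exp] at h3
  unfold X
  linarith

/-! ### The choice of the total duration -/

theorem bb_nonneg (hEM : Pool.Agent.W_7d29a1_h47.EM μ) (n : ℕ) : 0 ≤ bb μ n := by
  have := integral_V_nonpos hEM 0 n
  unfold bb
  linarith

theorem bb_le (hEM : Pool.Agent.W_7d29a1_h47.EM μ) (n : ℕ) : bb μ n ≤ EE μ n := by
  have h1 : bb μ n ≤ ep μ n (md n) := by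
    unfold bb ep
    rw [← integral_neg]
    refine integral_mono ((Sub_V 0 n).neg.integrable hEM) ((Sub_Xp 0 (md_nonneg n) (md_le n)).integrable hEM) fun η => ?_
    have h2 := neg_X_le_V (μ := μ) (s := 0) η 0 (md_nonneg n) (md_le n)
    exact le_trans (by linarith) (le_max_left _ _)
  have h2 := ep_le_EE (μ := μ) (le_refl n)
  linarith

theorem bb_add (hEM : Pool.Agent.W_7d29a1_h47.EM μ) (m n : ℕ) : bb μ (m + n) ≤ bb μ m + bb μ n := by
  unfold bb
  rw [integral_V_eq hEM, integral_V_eq hEM, integral_V_eq hEM]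
  have h := Pool.Agent.W_7d29a1_h47.a_add_le hEM (0 / 2) m n
  push_cast
  linarith

theorem bb_sum (hEM : Pool.Agent.W_7d29a1_h47.EM μ) {N₀ l : ℕ} (hl : 1 ≤ l) (hlN : l ≤ N₀) :
    ∑ N ∈ Finset.Ioc N₀ (2 * N₀), max (bb μ (N - l) - bb μ N) 0 ≤ 3 * N₀ * EE μ l := by
  have hN : (0 : ℝ) ≤ N₀ := Nat.cast_nonneg _
  have h1 : ∀ N ∈ Finset.Ioc N₀ (2 * N₀), max (bb μ (N - l) - bb μ N) 0 ≤ bb μ (N - l) - bb μ N + bb μ l := by
    intro N hN
    rw [Finset.mem_Ioc] at hN
    have h2 := bb_add hEM (N - l) l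
    rw [Nat.sub_add_cancel (by omega)] at h2
    exact max_le (by linarith [bb_nonneg hEM (μ := μ) l]) (by linarith)
  refine (Finset.sum_le_sum h1).trans ?_
  rw [Finset.sum_add_distrib, Finset.sum_const, Nat.card_Ioc, nsmul_eq_mul, Finset.sum_sub_distrib]
  have h2 : ∑ N ∈ Finset.Ioc N₀ (2 * N₀), bb μ (N - l) = ∑ M ∈ Finset.Ioc (N₀ - l) (2 * N₀ - l), bb μ M := by
    refine Finset.sum_nbij' (fun N => N - l) (fun M => M + l) ?_ ?_ ?_ ?_ ?_
    · intro N hN
      rw [Finset.mem_Ioc] at hN ⊢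
      omega
    · intro M hM
      rw [Finset.mem_Ioc] at hM ⊢
      omega
    · intro N hN
      rw [Finset.mem_Ioc] at hN
      show N - l + l = N
      omega
    · intro M _
      show M + l - l = M
      omega
    · intro N _
      rfl
  have h3 : ∑ M ∈ Finset.Ioc (N₀ - l) (2 * N₀ - l), bb μ M ≤
      ∑ M ∈ Finset.Ioc N₀ (2 * N₀), bb μ M + ∑ M ∈ Finset.Ioc (N₀ - l) N₀, bb μ M := by
    rw [← Finset.sum_union (Finset.disjoint_left.2 fun M h4 h5 => by
      rw [Finset.mem_Ioc] at h4 h5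
      omega)]
    refine Finset.sum_le_sum_of_subset_of_nonneg (fun M hM => ?_) fun M _ _ => bb_nonneg hEM M
    rw [Finset.mem_union, Finset.mem_Ioc, Finset.mem_Ioc]
    rw [Finset.mem_Ioc] at hM
    omega
  have h4 : ∑ M ∈ Finset.Ioc (N₀ - l) N₀, bb μ M ≤ l * EE μ N₀ := by
    refine (Finset.sum_le_card_nsmul _ _ (EE μ N₀) fun M hM => ?_).trans (le_of_eq ?_)
    · rw [Finset.mem_Ioc] at hM
      exact (bb_le hEM M).trans (EE_mono hM.2)
    · rw [Nat.card_Ioc, nsmul_eq_mul]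
      congr 2
      omega
  have h5 := EE_rate hEM hl hlN
  have h6 : bb μ l ≤ EE μ l := bb_le hEM l
  have h7 : ((2 * N₀ - N₀ : ℕ) : ℝ) = N₀ := by
    rw [show 2 * N₀ - N₀ = N₀ by omega]
  rw [h2, h7]
  nlinarith [mul_le_mul_of_nonneg_left h6 hN]

/-- (G5) One total duration which is good for a weighted family of durations. -/
theorem pick (hEM : Pool.Agent.W_7d29a1_h47.EM μ) {ι : Type*} (I : Finset ι) (α : ι → ℝ) (l : ι → ℕ)
    (hα : ∀ i ∈ I, 0 ≤ α i) {N₀ : ℕ} (hN : 1 ≤ N₀) (hl : ∀ i ∈ I, 1 ≤ l i ∧ l i ≤ N₀) :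
    ∃ N : ℕ, N₀ < N ∧ N ≤ 2 * N₀ ∧
      ∑ i ∈ I, α i * (max (bb μ (N - l i) - bb μ N) 0 / EE μ (l i)) ≤ 3 * ∑ i ∈ I, α i := by
  by_contra hcon
  push Not at hcon
  have hN0 : (0 : ℝ) < N₀ := by exact_mod_cast hN
  have h1 : ∑ N ∈ Finset.Ioc N₀ (2 * N₀), (3 * ∑ i ∈ I, α i) < ∑ N ∈ Finset.Ioc N₀ (2 * N₀),
      ∑ i ∈ I, α i * (max (bb μ (N - l i) - bb μ N) 0 / EE μ (l i)) := by
    refine Finset.sum_lt_sum_of_nonempty ⟨2 * N₀, Finset.mem_Ioc.2 ⟨by omega, le_rfl⟩⟩ fun N hN => ?_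
    rw [Finset.mem_Ioc] at hN
    exact hcon N hN.1 hN.2
  rw [Finset.sum_comm, Finset.sum_const, Nat.card_Ioc, nsmul_eq_mul, show 2 * N₀ - N₀ = N₀ by omega] at h1
  have h2 : ∑ i ∈ I, ∑ N ∈ Finset.Ioc N₀ (2 * N₀), α i * (max (bb μ (N - l i) - bb μ N) 0 / EE μ (l i)) ≤
      ∑ i ∈ I, α i * (3 * N₀) := by
    refine Finset.sum_le_sum fun i hi => ?_
    rw [← Finset.mul_sum, ← Finset.sum_div]
    refine mul_le_mul_of_nonneg_left ?_ (hα i hi)
    rw [div_le_iff₀ (EE_pos _)]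
    exact bb_sum hEM (hl i hi).1 (hl i hi).2
  rw [← Finset.sum_mul] at h2
  linarith

/-- (A3) of the assembly: dyadic form. -/
theorem XGood_of (hEM : Pool.Agent.W_7d29a1_h47.EM μ) (J : ℕ) (α : ℕ → ℝ) (hα : ∀ i, i < J → 0 ≤ α i) :
    ∃ N : ℕ, 2 ^ J < N ∧ N ≤ 2 * 2 ^ J ∧
      ∑ i ∈ Finset.range J, α i * (max (bb μ (N - 2 * 2 ^ i) - bb μ N) 0 / EE μ (2 ^ i)) ≤
        6 * ∑ i ∈ Finset.range J, α i := by
  obtain ⟨N, h1, h2, h3⟩ := pick (μ := μ) hEM (Finset.range J) α (fun i => 2 * 2 ^ i)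
    (fun i hi => hα i (Finset.mem_range.1 hi)) (N₀ := 2 ^ J) Nat.one_le_two_pow fun i hi => by
      rw [Finset.mem_range] at hi
      refine ⟨by have := Nat.one_le_two_pow (n := i); omega, ?_⟩
      rw [← pow_succ']
      exact Nat.pow_le_pow_right (by norm_num) hi
  refine ⟨N, h1, h2, ?_⟩
  have h4 : ∑ i ∈ Finset.range J, α i * (max (bb μ (N - 2 * 2 ^ i) - bb μ N) 0 / EE μ (2 ^ i)) ≤
      ∑ i ∈ Finset.range J, 2 * (α i * (max (bb μ (N - 2 * 2 ^ i) - bb μ N) 0 / EE μ (2 * 2 ^ i))) := by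
    refine Finset.sum_le_sum fun i hi => ?_
    have h5 := hα i (Finset.mem_range.1 hi)
    have h6 := EE_two hEM (2 ^ i)
    have h7 := EE_pos (μ := μ) (2 ^ i)
    have h8 := EE_pos (μ := μ) (2 * 2 ^ i)
    have h9 : (0 : ℝ) ≤ max (bb μ (N - 2 * 2 ^ i) - bb μ N) 0 := le_max_right _ _
    have h10 : max (bb μ (N - 2 * 2 ^ i) - bb μ N) 0 / EE μ (2 ^ i) ≤
        2 * (max (bb μ (N - 2 * 2 ^ i) - bb μ N) 0 / EE μ (2 * 2 ^ i)) := by
      rw [← mul_div_assoc, div_le_div_iff₀ h7 h8]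
      nlinarith
    have h11 := mul_le_mul_of_nonneg_left h10 h5
    linarith
  rw [← Finset.mul_sum] at h4
  linarith

end

end Pool.Agent.W_7d29a1_XG
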