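import Pool.Agent.W_7d29a1_XG.NLf

/-!
STORM X (power superconcentration, MP_7d29a1_pr), THEOREM (NL): `PairNL μ` (helper51, XA/Forms.lean), hence `XNL μ`: the
interaction of two adjacent slabs of the level `i` in the middle of `[0, N]` is at least a constant times the square of the unit.
(helper5)
-/

namespace Pool.Agent.W_7d29a1_XG

open MeasureTheory ProbabilityTheory Filter Topology
open Pool.Agent.W_7d29a1_F Pool.Agent.W_7d29a1_h4g Pool.Agent.W_7d29a1_G Pool.Agent.W_7d29a1_L78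
open Pool.Agent.W_7d29a1_SR Pool.Agent.W_7d29a1_SL Pool.Agent.W_7d29a1_h60
open Pool.Agent.W_7d29a1_X42
open Pool.Agent.W_7d29a1_f21 (splice)

noncomputable section

variable {μ : Measure ℝ} [IsProbabilityMeasure μ] {c C : ℝ} {n₀ : ℕ}

/-- The widths and the units of one level. -/
private lemma geo (h : In μ c C n₀) {e f : ℕ} {w wd₀ R₁ Rs : ℝ} (hf : 1 ≤ f) (hef : 3 * f ≤ e)
    (hw₀ : w = vA μ 1 (2 * e + 2 * f) * (2 * e + 2 * f)) (hv : vA μ 1 (2 * e + 2 * f) ≤ 1 / 2)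
    (hm0 : n₀ ≤ 2 * e + 2 * f)
    (h160 : 160 ≤ c * w) (hwd : (R₁ + Rs) * wd₀ ≤ c * w / 32) :
    ∃ L : ℤ, 0 ≤ L ∧ (f : ℤ) + 2 * L ≤ e ∧ ⌈R₁ * wd₀⌉ + ⌈Rs * wd₀⌉ + 3 ≤ L ∧ c / 16 * w ≤ L ∧ (L : ℝ) ≤ c * w / 8 ∧
      ∀ (m : ℕ) (y : ℤ), (m = 2 * e ∨ m = 2 * e + 2 * f) → |(y : ℝ) - m / 2| ≤ 9 * (c * w) / 32 →
        0 ≤ y ∧ y ≤ m ∧ ep μ m y ≤ C * EE μ (2 * e + 2 * f) := by
  have hc0 := h.c0
  have hf' : (1 : ℝ) ≤ f := by exact_mod_cast hf
  have hef' : 3 * (f : ℝ) ≤ e := by exact_mod_cast hef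
  have hv0 : 0 ≤ vA μ 1 (2 * e + 2 * f) := vA_nonneg (μ := μ) h.em zero_le_one _
  have hcw : c * w ≤ (e : ℝ) + f := by
    have h1 : c * w ≤ 1 * w := mul_le_mul_of_nonneg_right h.c1 (by rw [hw₀]; positivity)
    have h2 : vA μ 1 (2 * e + 2 * f) * (2 * (e : ℝ) + 2 * f) ≤ 1 / 2 * (2 * e + 2 * f) :=
      mul_le_mul_of_nonneg_right hv (by positivity)
    rw [← hw₀] at h2
    linarith
  obtain ⟨L, hL⟩ : ∃ L : ℤ, L = ⌊c * w / 8⌋ := ⟨_, rfl⟩
  have hL1 : (L : ℝ) ≤ c * w / 8 := by rw [hL]; exact Int.floor_le _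
  have hL2 : c * w / 8 - 1 < L := by rw [hL]; exact Int.sub_one_lt_floor _
  refine ⟨L, ?_, ?_, ?_, by linarith, hL1, ?_⟩
  · have : (0 : ℝ) ≤ L := by linarith
    exact_mod_cast this
  · have : (f : ℝ) + 2 * L ≤ e := by linarith
    exact_mod_cast this
  · have h1 := Int.ceil_lt_add_one (R₁ * wd₀)
    have h2 := Int.ceil_lt_add_one (Rs * wd₀)
    have : (⌈R₁ * wd₀⌉ : ℝ) + ⌈Rs * wd₀⌉ + 3 ≤ L := by
      have h3 : R₁ * wd₀ + Rs * wd₀ ≤ c * w / 32 := by linarith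
      linarith
    exact_mod_cast this
  · intro m y hm hy
    have hm1 : (e : ℝ) + f ≤ m ∧ (m : ℝ) ≤ 2 * e + 2 * f := by
      rcases hm with rfl | rfl
      · push_cast
        constructor <;> linarith
      · push_cast
        constructor <;> linarith
    have h1 := abs_le.1 hy
    have h2 : (0 : ℝ) ≤ y := by linarith
    have h3 : (y : ℝ) ≤ m := by linarith
    have h4 : 0 ≤ y := by exact_mod_cast h2
    have h5 : y ≤ (m : ℤ) := by exact_mod_cast h3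
    refine ⟨h4, h5, h.inn (2 * e + 2 * f) hm0 m y (by omega) h4 h5 (hy.trans ?_)⟩
    have h6 : c * vA μ 1 (2 * e + 2 * f) * ((e : ℝ) + f) ≤ c * vA μ 1 (2 * e + 2 * f) * m :=
      mul_le_mul_of_nonneg_left hm1.1 (by positivity)
    have h7 : c * w = 2 * (c * vA μ 1 (2 * e + 2 * f) * ((e : ℝ) + f)) := by rw [hw₀]; ring
    linarith

/-- THEOREM (NL) for one pair of slabs. -/
theorem pairNL (h : In μ c C n₀) : Pool.Agent.W_7d29a1_XA.PairNL μ := by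
  intro K
  have hc0 := h.c0
  have hC1 := h.C1
  have hC0 : 0 < C := lt_of_lt_of_le one_pos hC1
  have hB := bothT (μ := μ)
  -- the constants of the scale m
  obtain ⟨U, hU⟩ : ∃ U : ℝ, U = 48 * C := ⟨_, rfl⟩
  have hU0 : 0 < U := by rw [hU]; positivity
  obtain ⟨K₁, hK₁⟩ : ∃ K₁ : ℝ, K₁ = 8 * (|K| + 2) := ⟨_, rfl⟩
  have hK₁0 : 0 < K₁ := by rw [hK₁]; positivity
  obtain ⟨g₀, hg₀⟩ : ∃ g₀ : ℝ, g₀ = 2 * U + K₁ + 3 := ⟨_, rfl⟩
  have hg₀0 : 0 < g₀ := by rw [hg₀]; positivity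
  obtain ⟨Q₀, hQ₀⟩ : ∃ Q₀ : ℝ, Q₀ = 2 * U + K₁ + 6 := ⟨_, rfl⟩
  -- the inputs
  obtain ⟨R₁, hR₁, hstrip⟩ := strip h
  obtain ⟨Rs, C', hRs, hC', n₂, htube⟩ := tubeS h
  obtain ⟨bc, Jc, n₃, hcross⟩ := cross h (hsl h) Q₀ 0 (θ := c / 16) (ε := 1 / 32) (by positivity) (by norm_num)
  obtain ⟨B, hBd⟩ : ∃ B : ℝ, B = max (64 * C') (64 * (R₁ + Rs) / c) := ⟨_, rfl⟩
  obtain ⟨Ja, n₄, hsc⟩ := scale_a h B
  obtain ⟨J', hJ'⟩ : ∃ J' : ℕ, J' = max (max Jc Ja) 2 := ⟨_, rfl⟩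
  have hJc : Jc ≤ J' := by rw [hJ']; exact (le_max_left _ _).trans (le_max_left _ _)
  have hJa : Ja ≤ J' := by rw [hJ']; exact (le_max_right _ _).trans (le_max_left _ _)
  have hJ2 : 2 ≤ J' := by rw [hJ']; exact le_max_right _ _
  obtain ⟨p, hp, n₅, hst⟩ := hstrip (2 * 2 ^ J' * g₀)
  obtain ⟨n₆, hgr⟩ := wd_growth h
  refine ⟨p ^ 2 / 8, by positivity, 0, fun J1 => ?_⟩
  obtain ⟨i₁, hi₁⟩ := lev h J1
  obtain ⟨n₇, hn₇⟩ := eventually_atTop.1 (h.tv.eventually_le_const (show (0 : ℝ) < 1 / 2 by norm_num))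
  obtain ⟨n₈, hn₈⟩ := eventually_atTop.1 ((wd_tendsto h).eventually_ge_atTop (160 / c))
  obtain ⟨M, hM⟩ : ∃ M : ℕ, M = n₀ + n₂ + n₃ + n₄ + n₅ + n₆ + n₇ + n₈ + 1 := ⟨_, rfl⟩
  refine ⟨i₁ + M + J' + 1, fun i N a hi hN1 hN2 ha1 ha2 hGG => ?_⟩
  -- the numbers
  obtain ⟨k, hk⟩ : ∃ k, i = k + (J' + 1) := ⟨i - (J' + 1), by omega⟩
  have hkM : M ≤ 2 ^ k := (by omega : M ≤ k).trans (Nat.lt_two_pow_self).le
  obtain ⟨f, hf⟩ : ∃ f : ℕ, f = 2 ^ k := ⟨_, rfl⟩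
  rw [← hf] at hkM
  have hf1 : 1 ≤ f := by omega
  have h4J : 4 ≤ 2 ^ J' := by
    calc 4 = 2 ^ 2 := by norm_num
      _ ≤ 2 ^ J' := Nat.pow_le_pow_right (by norm_num) hJ2
  have h4f : 4 * f ≤ 2 ^ J' * f := Nat.mul_le_mul_right f h4J
  obtain ⟨e, he⟩ : ∃ e : ℕ, e + f = 2 ^ J' * f := ⟨2 ^ J' * f - f, by omega⟩
  have hef : 3 * f ≤ e := by omega
  have hm : 2 ^ i = 2 * e + 2 * f := by
    have h1 : 2 ^ i = 2 * (2 ^ J' * f) := by rw [hk, hf, pow_add, pow_succ]; ring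
    rw [h1, ← he]
    ring
  obtain ⟨r, hr⟩ : ∃ r : ℕ, N = a + ((4 * e + 4 * f) + r) := ⟨N - (a + (4 * e + 4 * f)), by omega⟩
  have hi₁' := hi₁ i (by omega)
  unfold Pool.Agent.W_7d29a1_XA.GG at hGG
  rw [hm] at hi₁' hGG ⊢
  have hEE0 := EE_pos (μ := μ) (2 * e + 2 * f)
  obtain ⟨E, hEd⟩ : ∃ E : ℝ, E = EE μ (2 * e + 2 * f) := ⟨_, rfl⟩
  obtain ⟨w, hwd⟩ : ∃ w : ℝ, w = wd μ (2 * e + 2 * f) := ⟨_, rfl⟩
  obtain ⟨w₀, hw₀d⟩ : ∃ w₀ : ℝ, w₀ = wd μ (2 * f) := ⟨_, rfl⟩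
  obtain ⟨E₀, hE₀d⟩ : ∃ E₀ : ℝ, E₀ = EE μ (2 * f) := ⟨_, rfl⟩
  have hE₀0 : 0 < E₀ := by rw [hE₀d]; exact EE_pos _
  have hE0 : 0 < E := by rw [hEd]; exact hEE0
  have hm2 : 2 ^ J' * (2 * f) = 2 * e + 2 * f := by
    have : 2 ^ J' * (2 * f) = 2 * (2 ^ J' * f) := by ring
    rw [this, ← he]
    ring
  have hfR : (1 : ℝ) ≤ f := by exact_mod_cast hf1
  -- the scales
  have s1 : B * E₀ ≤ E := by
    rw [hE₀d, hEd]
    refine hsc (2 * f) (2 * e + 2 * f) (by omega) ?_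
    rw [← hm2]
    exact Nat.mul_le_mul_right _ (Nat.pow_le_pow_right (by norm_num) hJa)
  have s2 : w₀ * E ≤ 2 * E₀ * w := by
    rw [hE₀d, hEd, hw₀d, hwd]
    exact hgr (2 * f) (2 * e + 2 * f) (by omega) (by omega)
  have hw₀8 : 160 / c ≤ w₀ := by rw [hw₀d]; exact hn₈ (2 * f) (by omega)
  have hw8 : 160 / c ≤ w := by rw [hwd]; exact hn₈ (2 * e + 2 * f) (by omega)
  have hc160 : 1 ≤ 160 / c := by
    rw [le_div_iff₀ hc0]
    linarith [h.c1]
  have hw₀1 : 1 ≤ w₀ := hc160.trans hw₀8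
  have h160 : 160 ≤ c * w := by
    rw [div_le_iff₀ hc0] at hw8
    linarith
  have s3 : 64 * C' * E₀ ≤ E := (mul_le_mul_of_nonneg_right (by rw [hBd]; exact le_max_left _ _) hE₀0.le).trans s1
  have s4 : (R₁ + Rs) * w₀ ≤ c * w / 32 := by
    have h1 : 64 * (R₁ + Rs) / c ≤ B := by rw [hBd]; exact le_max_right _ _
    have h2 : w₀ * (B * E₀) ≤ 2 * E₀ * w := (mul_le_mul_of_nonneg_left s1 (by linarith)).trans s2
    have h3 : (B * w₀) * E₀ ≤ (2 * w) * E₀ := by linarith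
    have h4 : B * w₀ ≤ 2 * w := le_of_mul_le_mul_right h3 hE₀0
    have h5 : 64 * (R₁ + Rs) / c * w₀ ≤ 2 * w := (mul_le_mul_of_nonneg_right h1 (by linarith)).trans h4
    have h6 : 64 * (R₁ + Rs) / c * w₀ = (64 * ((R₁ + Rs) * w₀)) / c := by ring
    rw [h6, div_le_iff₀ hc0] at h5
    linarith
  have s5 : E ≤ 2 * 2 ^ J' * E₀ := by
    have h1 := scale_b h (m := 2 * f) (n := 2 * e + 2 * f) (by omega) (by omega)
    rw [← hEd, ← hE₀d] at h1
    have h2 : ((2 * e + 2 * f : ℕ) : ℝ) = 2 ^ J' * ((2 * f : ℕ) : ℝ) := by exact_mod_cast hm2.symm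
    rw [h2] at h1
    have h3 : (0 : ℝ) < ((2 * f : ℕ) : ℝ) := by exact_mod_cast (by omega : 0 < 2 * f)
    have h4 : ((2 * f : ℕ) : ℝ) * E ≤ ((2 * f : ℕ) : ℝ) * (2 * 2 ^ J' * E₀) := by linarith
    exact le_of_mul_le_mul_left h4 h3
  obtain ⟨L, hL0, hL, hsep, hL16, hL8, hin⟩ := geo h (w := w) (wd₀ := w₀) (R₁ := R₁) (Rs := Rs) hf1 hef
    (by rw [hwd]; unfold wd; push_cast; ring) (hn₇ _ (by omega)) (by omega) h160 s4
  rw [← hEd] at hin
  obtain ⟨ρ, hρd⟩ : ∃ ρ : ℝ, ρ = R₁ * w₀ := ⟨_, rfl⟩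
  obtain ⟨R, hRd⟩ : ∃ R : ℝ, R = Rs * w₀ := ⟨_, rfl⟩
  rw [← hρd, ← hRd] at hsep
  have hρ1 : 1 ≤ ρ := by rw [hρd]; nlinarith
  have hρ0 : 0 ≤ ρ := by linarith
  have hR0 : 0 ≤ R := by rw [hRd]; positivity
  have hρ32 : ρ ≤ c * w / 32 := by
    have : (0 : ℝ) ≤ Rs * w₀ := by positivity
    rw [hρd]
    linarith
  -- the logarithms
  have hN0 : (N : ℝ) + 1 ≤ Real.exp E := by
    have h1 : (N : ℝ) ≤ (2 : ℝ) ^ (i + J1) := by exact_mod_cast hN2
    have h2 : (1 : ℝ) ≤ (2 : ℝ) ^ (i + J1) := one_le_pow₀ (by norm_num)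
    have h3 : (2 : ℝ) ^ (i + J1 + 1) ≤ Real.exp ((i : ℝ) + J1 + 1) := by
      have h4 : (2 : ℝ) ≤ Real.exp 1 := by
        have := Real.add_one_le_exp (1 : ℝ)
        linarith
      calc (2 : ℝ) ^ (i + J1 + 1) ≤ (Real.exp 1) ^ (i + J1 + 1) := pow_le_pow_left₀ (by norm_num) h4 _
        _ = Real.exp ((i : ℝ) + J1 + 1) := by
            rw [← Real.exp_nat_mul]
            congr 1
            push_cast
            ring
    have h5 : Real.exp ((i : ℝ) + J1 + 1) ≤ Real.exp E := Real.exp_le_exp.2 (by rw [hEd]; exact hi₁')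
    rw [pow_succ] at h3
    linarith
  have hNe : 8 ≤ N := by omega
  have hlogs : ∀ t : ℝ, 0 < t → t ≤ (N : ℝ) + 1 → Real.log t ≤ E := fun t ht htN => by
    rw [Real.log_le_iff_le_exp ht]
    exact htN.trans hN0
  have hN8 : (8 : ℝ) ≤ N := by exact_mod_cast hNe
  have haN : (a : ℝ) ≤ N := by exact_mod_cast (by omega : a ≤ N)
  have hfN : ((2 * f : ℕ) : ℝ) ≤ N := by exact_mod_cast (by omega : 2 * f ≤ N)
  have hl4 := hlogs 4 (by norm_num) (by linarith)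
  have hla := hlogs ((a : ℝ) + 1) (by positivity) (by linarith)
  have hlf := hlogs ((2 * f : ℕ) : ℝ) (by exact_mod_cast (by omega : 0 < 2 * f)) (by linarith)
  -- the strips
  obtain ⟨ht1, ht2⟩ := htube (2 * f) (by omega) (2 * f) f le_rfl (by omega) (by push_cast; omega) (by
    have h1 : |((f : ℤ) : ℝ) - ((2 * f : ℕ) : ℝ) / 2| = 0 := by
      push_cast
      rw [abs_eq_zero]
      ring
    have h2 : 0 ≤ vA μ 1 (2 * f) := vA_nonneg (μ := μ) h.em zero_le_one _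
    rw [h1]
    positivity)
  rw [← hw₀d, ← hRd] at ht1 ht2
  rw [← hE₀d] at ht2
  have hpos : ∀ (q : Pt) (η : Env), 0 < WR μ 0 (St R q) η q (2 * f) f := fun q η => by
    have h1 := ht1 (sh q η)
    rwa [WR_St_sh, zero_add] at h1
  -- the crossings
  have hcr : ∀ q : Pt, (law μ).real (PC μ (Real.exp (-(Q₀ * E))) q (2 * f) (f + L))ᶜ ≤ 1 / 32 := by
    intro q
    obtain ⟨-, hcq⟩ := hcross (2 * e + 2 * f) f (by omega) (by
      rw [← hm2]
      have h1 : 2 ^ Jc ≤ 2 ^ J' := Nat.pow_le_pow_right (by norm_num) hJc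
      have h2 : 2 ^ Jc * f ≤ 2 ^ J' * f := Nat.mul_le_mul_right f h1
      have h3 : 2 ^ J' * (2 * f) = 2 * (2 ^ J' * f) := by ring
      omega)
    obtain ⟨h1, h2⟩ := hcq q
    refine le_trans (measureReal_mono (fun η hη => ?_) (measure_ne_top _ _)) h1
    intro h3
    apply hη
    have h4 := h2 η h3 q (2 * f) (f + L) le_rfl (by push_cast; omega) (by simp) (by
      rw [← hwd]
      push_cast
      linarith)
    rw [← hEd] at h4
    exact h4
  -- the event of the slab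
  have hepB : 0 ≤ C * E := by positivity
  obtain ⟨Gs, hGsd⟩ : ∃ Gs : Set Env, Gs = GS μ e f L R (U * E) E (Real.exp (-(Q₀ * E))) := ⟨_, rfl⟩
  have hGs : (law μ).real Gsᶜ ≤ 1 / 4 := by
    have h1 := GS_prob h.em (e := e) (f := f) (L := L) (ρ := R) (b₁ := U * E) (b₂ := E) (q := Real.exp (-(Q₀ * E)))
      (B₁ := C * E) (B₂ := C' * E₀) (ε := 1 / 32) (by positivity) hE0 hL0 (by omega)
      (hin (2 * e) ((e : ℤ) - 2 * L) (Or.inl rfl) (by push_cast; rw [abs_le]; constructor <;> linarith)).2.2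
      (hin (2 * e + 2 * f) ((e : ℤ) + f + 2 * L) (Or.inr rfl) (by push_cast; rw [abs_le]; constructor <;> linarith)).2.2
      (hin (2 * e + 2 * f) ((e : ℤ) + f + L) (Or.inr rfl) (by push_cast; rw [abs_le]; constructor <;> linarith)).2.2
      (hin (2 * e) (e : ℤ) (Or.inl rfl) (by push_cast; rw [abs_le]; constructor <;> linarith)).2.2
      ht1 ht2 hcr
    rw [← hGsd] at h1
    have h2 : C * E / (U * E) = 1 / 48 := by
      rw [hU]
      field_simp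
    have h3 : C' * E₀ / E ≤ 1 / 64 := by
      rw [div_le_iff₀ hE0]
      linarith
    rw [h2] at h1
    linarith
  -- the good level
  obtain ⟨E₁, hE₁d⟩ : ∃ E₁ : Set Env, E₁ = {η | V μ 0 η 0 (a + ((4 * e + 4 * f) + r)) ≤
      Real.log (glue μ η a (4 * e + 4 * f) r) + K₁ * E} := ⟨_, rfl⟩
  have hE₁m : MeasurableSet E₁ := by
    rw [hE₁d]
    exact measurableSet_le (measurable_V 0 _) ((measurable_glue a _ r).log.add measurable_const)
  have hE₁p : (law μ).real E₁ᶜ ≤ 1 / 8 := by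
    have h1 := above_prob (μ := μ) h.em a (4 * e + 4 * f) r (Y := K₁ * E) (by positivity)
    have h2 : (law μ).real E₁ᶜ ≤ (law μ).real {η | Real.log (glue μ η a (4 * e + 4 * f) r) + K₁ * E ≤
        V μ 0 η 0 (a + ((4 * e + 4 * f) + r))} := by
      refine measureReal_mono (fun η hη => ?_) (measure_ne_top _ _)
      rw [hE₁d, Set.mem_compl_iff, Set.mem_ofPred_eq, not_le] at hη
      exact hη.le
    refine h2.trans (h1.trans ?_)
    rw [div_le_iff₀ (by positivity)]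
    have h3 : ep μ (4 * e + 4 * f) (md (4 * e + 4 * f)) ≤ 2 * E := by
      have h4 := ep_le_EE (μ := μ) (le_refl (4 * e + 4 * f))
      have h5 := EE_two h.em (2 * e + 2 * f)
      rw [show 2 * (2 * e + 2 * f) = 4 * e + 4 * f by ring, ← hEd] at h5
      linarith
    have h4 : bb μ (a + r) - bb μ (a + ((4 * e + 4 * f) + r)) ≤ |K| * E := by
      rw [hr, show a + ((4 * e + 4 * f) + r) - 2 * (2 * e + 2 * f) = a + r by omega, ← hEd, div_le_iff₀ hE0] at hGG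
      have h5 := le_max_left (bb μ (a + r) - bb μ (a + ((4 * e + 4 * f) + r))) 0
      have h6 := mul_le_mul_of_nonneg_right (le_abs_self K) hE0.le
      linarith
    rw [hK₁]
    linarith
  -- the lucky tubes
  obtain ⟨G, hGd⟩ : ∃ G : ℝ, G = g₀ * E := ⟨_, rfl⟩
  have hAL : p ^ 2 ≤ (law μ).real (AL μ e f L ρ G) := by
    refine AL_prob hp.le fun q => ?_
    refine (hst (2 * f) (by omega) q).trans (measureReal_mono (fun η hη => ?_) (measure_ne_top _ _))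
    rw [Set.mem_ofPred_eq, ← hw₀d, ← hρd, ← hE₀d] at hη
    rw [Set.mem_ofPred_eq]
    refine le_trans ?_ hη
    have h1 := mul_le_mul_of_nonneg_left s5 hg₀0.le
    rw [hGd]
    linarith
  -- the prices of both copies
  have hb : ∀ x ∈ Finset.Icc (0 : ℤ) a, ((law μ).prod (law μ)).real
      ((Ox μ a (4 * e + 4 * f) r x ×ˢ {η | sh ((a : ℤ), x) η ∈ AL μ e f L ρ G}) ∩ BD μ a e f L ρ (U * E) x) ≤
      1 / 24 * ((law μ).real (Ox μ a (4 * e + 4 * f) r x) * (law μ).real (AL μ e f L ρ G)) := by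
    intro x _
    have hAx : MeasurableSet {η : Env | sh ((a : ℤ), x) η ∈ AL μ e f L ρ G} :=
      (mp_sh (μ := μ) ((a : ℤ), x)).measurable (AL_meas e f L ρ G)
    have h1 := BD_prob (μ := μ) h.em (a := a) (e := e) (f := f) (r := r) (L := L) (x := x) (ρ := ρ) (u := U * E)
      (B := C * E) hρ0 hepB (by positivity)
      (fun y _ _ hy2 => hin (2 * e + 2 * f) ((e : ℤ) + 2 * f + 2 * L - y) (Or.inr rfl) (by
        have h2 := abs_le.1 hy2
        push_cast at h2 ⊢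
        rw [abs_le]
        constructor <;> linarith))
      (fun y _ _ hy2 => hin (2 * e) ((e : ℤ) + f - 2 * L - y) (Or.inl rfl) (by
        have h2 := abs_le.1 hy2
        push_cast at h2 ⊢
        rw [abs_le]
        constructor <;> linarith)) hAx
    rw [real_sh (μ := μ) ((a : ℤ), x) (AL_meas e f L ρ G)] at h1
    have h2 : 2 * (C * E / (U * E)) = 1 / 24 := by
      rw [hU]
      field_simp
      norm_num
    rw [h2] at h1
    exact h1
  have hGon : ∀ η η' : Env, (∀ q ∈ rows (0 : ℤ) (4 * e + 4 * f : ℕ), η q = η' q) → (η ∈ Gs ↔ η' ∈ Gs) := by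
    rw [hGsd]
    exact GS_on e f L R (U * E) E (Real.exp (-(Q₀ * E)))
  have hGm : MeasurableSet Gs := by rw [hGsd]; exact GS_meas _ _ _ _ _ _ _
  have hsum := sum_prob (μ := μ) a (4 * e + 4 * f) r hGm hGon (AL_meas e f L ρ G) hE₁m (BD_meas a e f L ρ (U * E)) hGs
    hE₁p hb
  obtain ⟨S, hSd⟩ : ∃ S : Set (Env × Env), S = ⋃ x ∈ Finset.Icc (0 : ℤ) a,
      ((Ox μ a (4 * e + 4 * f) r x ∩ E₁ ∩ {η | sh ((a : ℤ), x) η ∈ Gs}) ×ˢ
        {η | sh ((a : ℤ), x) η ∈ AL μ e f L ρ G}) \ BD μ a e f L ρ (U * E) x := ⟨_, rfl⟩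
  rw [← hSd] at hsum
  have hSm : MeasurableSet S := by
    rw [hSd]
    refine Finset.measurableSet_biUnion _ fun x _ => ?_
    exact ((((Ox_meas a _ r x).inter hE₁m).inter ((mp_sh (μ := μ) ((a : ℤ), x)).measurable hGm)).prod
      ((mp_sh (μ := μ) ((a : ℤ), x)).measurable (AL_meas e f L ρ G))).diff (BD_meas a e f L ρ (U * E) x)
  -- the interaction
  have hmix := mix_ge_choice (μ := μ) (F := fun η : Env => V μ 0 η 0 (a + ((4 * e + 4 * f) + r)))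
    (measurable_V 0 _) (by
      rw [memLp_two_iff_integrable_sq (measurable_V (μ := μ) 0 _).aestronglyMeasurable]
      exact Sub.sq_integrable h.em (Sub_V 0 _))
    (A := rows (a : ℤ) (a + (2 * e + 2 * f : ℕ))) (B := rows ((a : ℤ) + (2 * e + 2 * f : ℕ)) (a + 2 * (2 * e + 2 * f : ℕ)))
    (rows_disj le_rfl) (Finset.Icc (0 : ℤ) a) (E := fun x => Ox μ a (4 * e + 4 * f) r x)
    (fun x _ => Ox_meas a _ r x) (fun x hx y hy hxy => Ox_disj hx hy hxy)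
    (fun x _ g g' hg => Ox_dep x fun q hq => hg q fun hq2 => hq (by
      rcases hq2 with h1 | h1
      · refine ⟨h1.1, h1.2.trans ?_⟩
        push_cast
        omega
      · refine ⟨lt_of_le_of_lt ?_ h1.1, h1.2.trans ?_⟩
        · push_cast
          omega
        · push_cast
          omega))
    (T := fun x => TT a e f L ρ x) (T' := fun x => TT' a e f L ρ x)
    (fun x _ q hq => by
      have h1 := hq.2
      unfold sT at h1
      refine ⟨lt_of_le_of_lt ?_ h1.1, h1.2.trans ?_⟩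
      · push_cast
        omega
      · push_cast
        omega)
    (fun x _ q hq => by
      have h1 := hq.2
      unfold sT' at h1
      refine ⟨lt_of_le_of_lt ?_ h1.1, h1.2.trans ?_⟩
      · push_cast
        omega
      · push_cast
        omega)
    (S := S) (a := E) hE0.le hSm (by
      intro ω hω
      rw [hSd] at hω
      simp only [Set.mem_iUnion] at hω
      obtain ⟨x, hx, ⟨⟨⟨⟨hO, hE1⟩, hGx⟩, hAx⟩, hBx⟩⟩ := hω
      refine ⟨x, hx, hO, ?_⟩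
      have hA2 := AL_sh hAx
      rw [hE₁d] at hE1
      have hGx' : sh ((a : ℤ), x) ω.1 ∈ GS μ e f L R (U * E) E (Real.exp (-(Q₀ * E))) := by
        rw [← hGsd]
        exact hGx
      have hB1 : C1 μ a e f L ρ x (ω.1, ω.2) ≤ U * E := by
        by_contra hcon
        exact hBx (Or.inl (not_le.1 hcon))
      have hB2 : C2 μ a e f L ρ x (ω.1, ω.2) ≤ U * E := by
        by_contra hcon
        exact hBx (Or.inr (not_le.1 hcon))
      have h1 := det_x (μ := μ) hB (a := a) (e := e) (f := f) (r := r) (L := L) (x := x) (ρ := ρ) (R := R) hρ0 hR0 hx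
        hL0 hL hsep (g := ω.1) (g' := ω.2) (E := E) (G := G) (u := U * E) (K₁ := K₁) (Q := Q₀ * E) hl4 hla hf1 hlf hO hE1
        hGx' (fun q => hpos q ω.1) (cf_pos hρ1 ω.2 _ _) (cf_pos hρ1 ω.2 _ _) hA2.1 hA2.2 hB1 hB2
        (by rw [hGd, hg₀]; linarith) (by rw [hQ₀]; linarith)
      have h2 := neg_abs_le (dd (TT a e f L ρ x) (TT' a e f L ρ x)
        (fun η => V μ 0 η 0 (a + ((4 * e + 4 * f) + r))) ω)
      have h3 : dd (TT a e f L ρ x) (TT' a e f L ρ x) (fun η => V μ 0 η 0 (a + ((4 * e + 4 * f) + r))) ω ≤ -E := h1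
      linarith)
  have hFn : Pool.Agent.W_7d29a1_XA.Fn μ N = fun η : Env => V μ 0 η 0 (a + ((4 * e + 4 * f) + r)) := by rw [hr]; rfl
  rw [hFn, ← hEd]
  refine le_trans ?_ hmix
  have hS2 : p ^ 2 / 2 ≤ ((law μ).prod (law μ)).real S := by
    refine le_trans ?_ hsum
    have h1 : p ^ 2 * (1 / 2) ≤ (law μ).real (AL μ e f L ρ G) * (1 - 1 / 8 - 1 / 4 - 1 / 24) :=
      mul_le_mul hAL (by norm_num) (by norm_num) measureReal_nonneg
    linarith
  have h1 := mul_le_mul_of_nonneg_left hS2 (sq_nonneg E)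
  show p ^ 2 / 8 * E ^ 2 ≤ E ^ 2 * ((law μ).prod (law μ)).real S / 4
  linarith

/-- THEOREM (NL). -/
theorem xNL (h : In μ c C n₀) : Pool.Agent.W_7d29a1_XA.XNL μ := Pool.Agent.W_7d29a1_XA.XNL_of_pairs (pairNL h)

end

end Pool.Agent.W_7d29a1_XG
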