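import Pool.Agent.W_7d29a1_XG.Good
import Pool.Agent.W_7d29a1_SL.LuckSide

/-!
STORM X (power superconcentration, MP_7d29a1_pr), (NL), probabilistic part (1): two copies of the environment; the mean
cost of the way from the end of a confined polymer of the second copy, in the first copy. (helper5)
-/

namespace Pool.Agent.W_7d29a1_XG

open MeasureTheory ProbabilityTheory Filter Topology
open Pool.Agent.W_7d29a1_F Pool.Agent.W_7d29a1_h4g Pool.Agent.W_7d29a1_G Pool.Agent.W_7d29a1_L78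
open Pool.Agent.W_7d29a1_SR Pool.Agent.W_7d29a1_SL Pool.Agent.W_7d29a1_f21 Pool.Agent.W_7d29a1_h60

noncomputable section

variable {μ : Measure ℝ}

/-- The mean cost of the last way: the confined polymer in `g'`, the last way in `g`. -/
def Cq (μ : Measure ℝ) (S : Set Pt) (g' g : Env) (s : Pt) (l t : ℕ) (z : ℤ) : ℝ :=
  (∑ y ∈ Finset.Icc (0 : ℤ) l, WR μ 0 S g' s l y * max (X μ 0 g (s.1 + l, s.2 + y) t (z - y)) 0) / cS μ S g' s l

theorem Cq_nonneg (S : Set Pt) (g' g : Env) (s : Pt) (l t : ℕ) (z : ℤ) : 0 ≤ Cq μ S g' g s l t z :=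
  div_nonneg (Finset.sum_nonneg fun _ _ => mul_nonneg (WR_nonneg _ _ _ _ _) (le_max_right _ _)) (cS_nonneg S g' s l)

theorem cS_splice {S T : Set Pt} (g' g : Env) (s : Pt) (l : ℕ) (hT : S ∩ rows s.1 (s.1 + l) ⊆ T) :
    cS μ S (splice T g' g) s l = cS μ S g' s l :=
  cS_dep (μ := μ) S s l fun _ hp => splice_mem g' g (hT hp)

theorem CQ_splice {S T : Set Pt} (g' g : Env) (s : Pt) (l t : ℕ) (z : ℤ) (hT : S ∩ rows s.1 (s.1 + l) ⊆ T)
    (hT2 : ∀ p ∈ T, p.1 ≤ s.1 + l) : CQ μ S (splice T g' g) s l t z = Cq μ S g' g s l t z := by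
  unfold CQ Cq
  rw [cS_splice g' g s l hT]
  congr 1
  refine Finset.sum_congr rfl fun y _ => ?_
  have h1 : WR μ 0 S (splice T g' g) s l y = WR μ 0 S g' s l y :=
    WR_dep (μ := μ) (s := 0) S s l y fun p hp => splice_mem g' g (hT ⟨hp.2, hp.1.1, hp.1.2.1⟩)
  have h2 : X μ 0 (splice T g' g) (s.1 + l, s.2 + y) t (z - y) = X μ 0 g (s.1 + l, s.2 + y) t (z - y) := by
    refine X_dep_rows (μ := μ) (s := 0) _ t (z - y) fun p hp => splice_not_mem g' g fun hp2 => ?_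
    have h3 := hT2 p hp2
    have h4 : s.1 + l < p.1 := hp.1
    omega
  rw [h1, h2]

theorem measurable_Cq (S : Set Pt) (s : Pt) (l t : ℕ) (z : ℤ) :
    Measurable fun w : Env × Env => Cq μ S w.2 w.1 s l t z := by
  unfold Cq
  refine (Finset.measurable_sum _ fun y _ => ?_).div ((measurable_cS S s l).comp measurable_snd)
  exact ((measurable_WR' _ s l y).comp measurable_snd).mul
    (((measurable_X _ t (z - y)).comp measurable_fst).max measurable_const)

variable [IsProbabilityMeasure μ]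

private lemma ind_int {A : Set Env} (hA : MeasurableSet A) :
    ∫ η, A.indicator (fun _ => (1 : ℝ)) η ∂(law μ) = (law μ).real A := by
  rw [integral_indicator hA]
  simp [Measure.real]

/-- The mean of `Cq` on the product of two events. -/
theorem Cq_mean (hEM : Pool.Agent.W_7d29a1_h47.EM μ) {S : Set Pt} {r : ℝ} (hr : 0 ≤ r) {s : Pt} (hS : S ⊆ St r s)
    (l t : ℕ) (z : ℤ) {B : ℝ} (hB : 0 ≤ B)
    (hend : ∀ y : ℤ, 0 ≤ y → y ≤ l → |2 * (y : ℝ) - l| ≤ 2 * r → 0 ≤ z - y ∧ z - y ≤ t ∧ ep μ t (z - y) ≤ B)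
    {O A : Set Env} (hO : MeasurableSet O) (hA : MeasurableSet A)
    (hOd : ∀ η η' : Env, (∀ p, p ∉ rows (s.1 + l) (s.1 + l + t) → η p = η' p) → (η ∈ O ↔ η' ∈ O)) :
    Integrable (fun w : Env × Env => O.indicator (fun _ => (1 : ℝ)) w.1 * A.indicator (fun _ => (1 : ℝ)) w.2 *
      Cq μ S w.2 w.1 s l t z) ((law μ).prod (law μ)) ∧
    ∫ w : Env × Env, O.indicator (fun _ => (1 : ℝ)) w.1 * A.indicator (fun _ => (1 : ℝ)) w.2 *
      Cq μ S w.2 w.1 s l t z ∂((law μ).prod (law μ)) ≤ B * ((law μ).real O * (law μ).real A) := by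
  classical
  obtain ⟨K, hK⟩ : ∃ K : Finset ℤ, K = Finset.filter (fun y : ℤ => |2 * (y : ℝ) - l| ≤ 2 * r)
    (Finset.Icc (0 : ℤ) l) := ⟨_, rfl⟩
  have hKI : ∀ y ∈ K, 0 ≤ y ∧ y ≤ (l : ℤ) ∧ |2 * (y : ℝ) - l| ≤ 2 * r := fun y hy => by
    rw [hK, Finset.mem_filter, Finset.mem_Icc] at hy
    exact ⟨hy.1.1, hy.1.2, hy.2⟩
  obtain ⟨iO, hiO⟩ : ∃ iO : Env → ℝ, iO = O.indicator fun _ => (1 : ℝ) := ⟨_, rfl⟩
  obtain ⟨iA, hiA⟩ : ∃ iA : Env → ℝ, iA = A.indicator fun _ => (1 : ℝ) := ⟨_, rfl⟩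
  have h01 : ∀ (D : Set Env) (η : Env), 0 ≤ D.indicator (fun _ => (1 : ℝ)) η ∧ D.indicator (fun _ => (1 : ℝ)) η ≤ 1 := by
    intro D η
    by_cases h : η ∈ D
    · rw [Set.indicator_of_mem h]
      exact ⟨zero_le_one, le_rfl⟩
    · rw [Set.indicator_of_notMem h]
      exact ⟨le_rfl, zero_le_one⟩
  have hcf : ∀ η, 0 ≤ cS μ S η s l := fun η => cS_nonneg S η s l
  have hsumW : ∀ η, ∑ y ∈ K, WR μ 0 S η s l y = cS μ S η s l := by
    intro η
    unfold cS
    rw [hK, Finset.sum_filter]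
    refine Finset.sum_congr rfl fun y _ => ?_
    split_ifs with h
    · rfl
    · exact (WR_St_out hr hS η l h).symm
  obtain ⟨G, hG⟩ : ∃ G : ℤ → Env → ℝ, G = fun y η => iA η * (WR μ 0 S η s l y / cS μ S η s l) := ⟨_, rfl⟩
  obtain ⟨H, hH⟩ : ∃ H : ℤ → Env → ℝ, H = fun y η => iO η * max (X μ 0 η (s.1 + l, s.2 + y) t (z - y)) 0 := ⟨_, rfl⟩
  have he : ∀ w : Env × Env, iO w.1 * iA w.2 * Cq μ S w.2 w.1 s l t z = ∑ y ∈ K, H y w.1 * G y w.2 := by
    intro w
    unfold Cq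
    rw [hG, hH]
    have h1 : ∑ y ∈ Finset.Icc (0 : ℤ) l, WR μ 0 S w.2 s l y * max (X μ 0 w.1 (s.1 + l, s.2 + y) t (z - y)) 0 =
        ∑ y ∈ K, WR μ 0 S w.2 s l y * max (X μ 0 w.1 (s.1 + l, s.2 + y) t (z - y)) 0 := by
      rw [hK, Finset.sum_filter]
      refine Finset.sum_congr rfl fun y _ => ?_
      split_ifs with h
      · rfl
      · rw [WR_St_out hr hS w.2 l h, zero_mul]
    rw [h1, Finset.sum_div, Finset.mul_sum]
    exact Finset.sum_congr rfl fun y _ => by ring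
  have hg01 : ∀ y ∈ K, ∀ η, 0 ≤ G y η ∧ G y η ≤ 1 := by
    intro y hy η
    have h1 : 0 ≤ WR μ 0 S η s l y / cS μ S η s l := div_nonneg (WR_nonneg _ _ _ _ _) (hcf η)
    have h2 : WR μ 0 S η s l y / cS μ S η s l ≤ 1 := by
      refine div_le_one_of_le₀ ?_ (hcf η)
      rw [← hsumW η]
      exact Finset.single_le_sum (f := fun y => WR μ 0 S η s l y) (fun y _ => WR_nonneg _ _ _ _ _) hy
    have h3 := h01 A η
    rw [← hiA] at h3
    rw [hG]
    exact ⟨mul_nonneg h3.1 h1, (mul_le_mul h3.2 h2 h1 zero_le_one).trans (le_of_eq (one_mul 1))⟩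
  have hGm : ∀ y, Measurable (G y) := fun y => by
    rw [hG, hiA]
    exact (measurable_const.indicator hA).mul ((measurable_WR' _ s l y).div (measurable_cS S s l))
  have hGS : ∀ y ∈ K, Sub (G y) := fun y hy => Sub_bdd (hGm y) fun η => by
    rw [abs_of_nonneg (hg01 y hy η).1]
    exact (hg01 y hy η).2
  have hOS : Sub iO := Sub_bdd (by rw [hiO]; exact measurable_const.indicator hO) fun η => by
    have h3 := h01 O η
    rw [← hiO] at h3
    rw [abs_of_nonneg h3.1]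
    exact h3.2
  have hXS : ∀ y ∈ K, Sub fun η => max (X μ 0 η (s.1 + l, s.2 + y) t (z - y)) 0 := fun y hy => by
    obtain ⟨h1, h2, h3⟩ := hKI y hy
    obtain ⟨h4, h5, -⟩ := hend y h1 h2 h3
    exact Sub_Xp _ h4 h5
  have hHi : ∀ y ∈ K, Integrable (H y) (law μ) := fun y hy => by
    rw [hH]
    exact Sub.mul_integrable hEM hOS (hXS y hy)
  have hHv : ∀ y ∈ K, ∫ η, H y η ∂(law μ) ≤ B * (law μ).real O := by
    intro y hy
    obtain ⟨h1, h2, h3⟩ := hKI y hy
    obtain ⟨h4, h5, h6⟩ := hend y h1 h2 h3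
    have h7 : DependsOn iO (rows (s.1 + l) (s.1 + l + t))ᶜ := by
      intro η η' h
      have h8 := hOd η η' fun p hp => h p hp
      rw [hiO]
      by_cases h9 : η ∈ O
      · rw [Set.indicator_of_mem h9, Set.indicator_of_mem (h8.1 h9)]
      · rw [Set.indicator_of_notMem h9, Set.indicator_of_notMem fun h10 => h9 (h8.2 h10)]
    have h8 : DependsOn (fun η : Env => max (X μ 0 η (s.1 + l, s.2 + y) t (z - y)) 0) (rows (s.1 + l) (s.1 + l + t)) := by
      intro η η' h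
      have h1 : X μ 0 η (s.1 + l, s.2 + y) t (z - y) = X μ 0 η' (s.1 + l, s.2 + y) t (z - y) :=
        X_dep_rows (μ := μ) (s := 0) (s.1 + l, s.2 + y) t (z - y) h
      show max (X μ 0 η (s.1 + l, s.2 + y) t (z - y)) 0 = max (X μ 0 η' (s.1 + l, s.2 + y) t (z - y)) 0
      rw [h1]
    have h9 : ∫ η, H y η ∂(law μ) = (law μ).real O * ep μ t (z - y) := by
      rw [hH]
      show ∫ η, iO η * max (X μ 0 η (s.1 + l, s.2 + y) t (z - y)) 0 ∂(law μ) = _
      rw [integral_indep hOS.1 (hXS y hy).1 h7 h8 disjoint_compl_left, integral_Xp, hiO, ind_int hO]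
      rfl
    rw [h9, mul_comm]
    exact mul_le_mul_of_nonneg_right h6 measureReal_nonneg
  have hint : ∀ y ∈ K, Integrable (fun w : Env × Env => H y w.1 * G y w.2) ((law μ).prod (law μ)) := fun y hy =>
    (hHi y hy).mul_prod ((hGS y hy).integrable hEM)
  rw [← hiO, ← hiA]
  simp only [he]
  refine ⟨integrable_finsetSum _ hint, ?_⟩
  rw [integral_finsetSum _ hint]
  have h1 : ∀ y ∈ K, ∫ w : Env × Env, H y w.1 * G y w.2 ∂((law μ).prod (law μ)) ≤
      B * (law μ).real O * ∫ η, G y η ∂(law μ) := by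
    intro y hy
    rw [integral_prod_mul (fun η => H y η) fun η => G y η]
    exact mul_le_mul_of_nonneg_right (hHv y hy) (integral_nonneg fun η => (hg01 y hy η).1)
  refine (Finset.sum_le_sum h1).trans ?_
  rw [← Finset.mul_sum, ← integral_finsetSum _ fun y hy => (hGS y hy).integrable hEM, ← mul_assoc]
  refine mul_le_mul_of_nonneg_left ?_ (mul_nonneg hB measureReal_nonneg)
  have h2 : ∀ η, ∑ y ∈ K, G y η ≤ iA η := by
    intro η
    have h3 := h01 A η
    rw [← hiA] at h3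
    rw [hG]
    show ∑ y ∈ K, iA η * (WR μ 0 S η s l y / cS μ S η s l) ≤ iA η
    rw [← Finset.mul_sum, ← Finset.sum_div, hsumW]
    have := mul_le_mul_of_nonneg_left (div_self_le_one (cS μ S η s l)) h3.1
    linarith
  rw [← ind_int hA, ← hiA]
  refine integral_mono (integrable_finsetSum _ fun y hy => (hGS y hy).integrable hEM) ?_ h2
  have h4 : Sub iA := Sub_bdd (by rw [hiA]; exact measurable_const.indicator hA) fun η => by
    have h3 := h01 A η
    rw [← hiA] at h3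
    rw [abs_of_nonneg h3.1]
    exact h3.2
  exact h4.integrable hEM

/-- Markov. -/
theorem Cq_markov (hEM : Pool.Agent.W_7d29a1_h47.EM μ) {S : Set Pt} {r : ℝ} (hr : 0 ≤ r) {s : Pt} (hS : S ⊆ St r s)
    (l t : ℕ) (z : ℤ) {B : ℝ} (hB : 0 ≤ B)
    (hend : ∀ y : ℤ, 0 ≤ y → y ≤ l → |2 * (y : ℝ) - l| ≤ 2 * r → 0 ≤ z - y ∧ z - y ≤ t ∧ ep μ t (z - y) ≤ B)
    {O A : Set Env} (hO : MeasurableSet O) (hA : MeasurableSet A)
    (hOd : ∀ η η' : Env, (∀ p, p ∉ rows (s.1 + l) (s.1 + l + t) → η p = η' p) → (η ∈ O ↔ η' ∈ O)) {u : ℝ} (hu : 0 < u) :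
    ((law μ).prod (law μ)).real ((O ×ˢ A) ∩ {w : Env × Env | u < Cq μ S w.2 w.1 s l t z}) ≤
      B / u * ((law μ).real O * (law μ).real A) := by
  obtain ⟨hi, hm⟩ := Cq_mean (μ := μ) hEM hr hS l t z hB hend hO hA hOd
  have h1 := mul_meas_ge_le_integral_of_nonneg (μ := (law μ).prod (law μ))
    (f := fun w : Env × Env => O.indicator (fun _ => (1 : ℝ)) w.1 * A.indicator (fun _ => (1 : ℝ)) w.2 *
      Cq μ S w.2 w.1 s l t z)
    (ae_of_all _ fun w => mul_nonneg (mul_nonneg (Set.indicator_nonneg (fun _ _ => zero_le_one) _)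
      (Set.indicator_nonneg (fun _ _ => zero_le_one) _)) (Cq_nonneg S _ _ s l t z)) hi u
  have h2 : ((law μ).prod (law μ)).real ((O ×ˢ A) ∩ {w : Env × Env | u < Cq μ S w.2 w.1 s l t z}) ≤
      ((law μ).prod (law μ)).real {w : Env × Env | u ≤ O.indicator (fun _ => (1 : ℝ)) w.1 *
        A.indicator (fun _ => (1 : ℝ)) w.2 * Cq μ S w.2 w.1 s l t z} := by
    refine measureReal_mono (fun w hw => ?_) (measure_ne_top _ _)
    rw [Set.mem_ofPred_eq, Set.indicator_of_mem hw.1.1, Set.indicator_of_mem hw.1.2, one_mul, one_mul]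
    exact le_of_lt hw.2
  have h3 := h1.trans hm
  have h4 := mul_le_mul_of_nonneg_left h2 hu.le
  rw [div_mul_eq_mul_div, le_div_iff₀ hu, mul_comm]
  exact h4.trans h3

end

end Pool.Agent.W_7d29a1_XG
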