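import Pool.Agent.W_7d29a1_XG.NLe
import Pool.Agent.W_7d29a1_XA.Forms
import Pool.Agent.W_7d29a1_SR.CoreS
import Pool.Agent.W_7d29a1_SR.TubeS
import Pool.Agent.W_7d29a1_SL.Hsl

/-!
STORM X (power superconcentration, MP_7d29a1_pr), (NL): the interaction of two adjacent slabs of the level `i` is at least a
constant times the square of the unit, if the glued functional is not much better than the free energy. (helper5)
-/

namespace Pool.Agent.W_7d29a1_XG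

open MeasureTheory ProbabilityTheory Filter Topology
open Pool.Agent.W_7d29a1_F Pool.Agent.W_7d29a1_h4g Pool.Agent.W_7d29a1_G Pool.Agent.W_7d29a1_L78
open Pool.Agent.W_7d29a1_SR Pool.Agent.W_7d29a1_SL Pool.Agent.W_7d29a1_h60
open Pool.Agent.W_7d29a1_X42
open Pool.Agent.W_7d29a1_f21 (splice)

noncomputable section

variable {μ : Measure ℝ} {c C : ℝ} {n₀ : ℕ}

/-- Both tubes are lucky. -/
def AL (μ : Measure ℝ) (e f : ℕ) (L : ℤ) (ρ G : ℝ) : Set Env :=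
  {η | G ≤ Real.log (cf μ ρ η (((2 * e : ℕ) : ℤ), (e : ℤ) - 2 * L) (2 * f))} ∩
  {η | G ≤ Real.log (cf μ ρ η (((2 * e + 2 * f : ℕ) : ℤ), (e : ℤ) + f + 2 * L) (2 * f))}

theorem cf_sh' (ρ : ℝ) (η : Env) (z p : Pt) (n : ℕ) :
    cf μ ρ (sh z η) p n = cS μ (St ρ (p + z)) η (p + z) n :=
  Finset.sum_congr rfl fun y _ => WR_St_sh ρ z p n y η

theorem AL_sh {a e f : ℕ} {L x : ℤ} {ρ G : ℝ} {η : Env} (h : sh ((a : ℤ), x) η ∈ AL μ e f L ρ G) :
    G ≤ Real.log (cS μ (St ρ (sT a e L x)) η (sT a e L x) (2 * f)) ∧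
    G ≤ Real.log (cS μ (St ρ (sT' a e f L x)) η (sT' a e f L x) (2 * f)) := by
  obtain ⟨h1, h2⟩ := h
  rw [Set.mem_ofPred_eq, cf_sh'] at h1 h2
  have e1 : ((((2 * e : ℕ) : ℤ), (e : ℤ) - 2 * L) : Pt) + ((a : ℤ), x) = sT a e L x := by
    unfold sT
    rw [Prod.mk_add_mk, Prod.mk.injEq]
    constructor <;> (push_cast; ring)
  have e2 : ((((2 * e + 2 * f : ℕ) : ℤ), (e : ℤ) + f + 2 * L) : Pt) + ((a : ℤ), x) = sT' a e f L x := by
    unfold sT'
    rw [Prod.mk_add_mk, Prod.mk.injEq]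
    constructor <;> (push_cast; ring)
  rw [e1] at h1
  rw [e2] at h2
  exact ⟨h1, h2⟩

theorem AL_meas (e f : ℕ) (L : ℤ) (ρ G : ℝ) : MeasurableSet (AL μ e f L ρ G) :=
  (measurableSet_le measurable_const (poly_cf (μ := μ) _ _ _).measurable.log).inter
    (measurableSet_le measurable_const (poly_cf (μ := μ) _ _ _).measurable.log)

variable [IsProbabilityMeasure μ]

theorem AL_prob {e f : ℕ} {L : ℤ} {ρ G p₀ : ℝ} (hp₀ : 0 ≤ p₀)
    (hp : ∀ a : Pt, p₀ ≤ (law μ).real {η | G ≤ Real.log (cf μ ρ η a (2 * f))}) :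
    p₀ ^ 2 ≤ (law μ).real (AL μ e f L ρ G) := by
  have hdep : ∀ a : Pt, ∀ η η' : Env, (∀ p ∈ rows a.1 (a.1 + (2 * f : ℕ)), η p = η' p) →
      (η ∈ {η | G ≤ Real.log (cf μ ρ η a (2 * f))} ↔ η' ∈ {η | G ≤ Real.log (cf μ ρ η a (2 * f))}) := by
    intro a η η' hh
    have h1 : cf μ ρ η a (2 * f) = cf μ ρ η' a (2 * f) :=
      cS_dep (μ := μ) (St ρ a) a (2 * f) fun p hp => hh p hp.2
    rw [Set.mem_ofPred_eq, Set.mem_ofPred_eq, h1]
  unfold AL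
  rw [real_inter_indep (μ := μ) (measurableSet_le measurable_const (poly_cf (μ := μ) _ _ _).measurable.log)
    (measurableSet_le measurable_const (poly_cf (μ := μ) _ _ _).measurable.log) (hdep _) (hdep _)
    (rows_disj (by push_cast; omega)), sq]
  exact mul_le_mul (hp _) (hp _) hp₀ measureReal_nonneg

theorem lev (h : In μ c C n₀) (J : ℕ) : ∃ i₁ : ℕ, ∀ i : ℕ, i₁ ≤ i → (i : ℝ) + J + 1 ≤ EE μ (2 ^ i) := by
  obtain ⟨b, K, hb, hK, hp⟩ := EE_pow h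
  obtain ⟨q, hq⟩ : ∃ q : ℝ, q = (2 : ℝ) ^ b := ⟨_, rfl⟩
  have hq1 : 1 < q := by
    rw [hq]
    exact Real.one_lt_rpow (by norm_num) hb
  have h1 := tendsto_pow_const_div_const_pow_of_one_lt 1 hq1
  have h2 := tendsto_pow_const_div_const_pow_of_one_lt 0 hq1
  have h3 : Tendsto (fun i : ℕ => (i : ℝ) ^ 1 / q ^ i + ((J : ℝ) + 1) * ((i : ℝ) ^ 0 / q ^ i)) atTop
      (𝓝 (0 + ((J : ℝ) + 1) * 0)) := h1.add (h2.const_mul _)
  rw [mul_zero, add_zero] at h3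
  obtain ⟨i₁, hi₁⟩ := eventually_atTop.1 (h3.eventually_le_const hK)
  refine ⟨i₁, fun i hi => ?_⟩
  have h4 := hi₁ i hi
  have hq0 : 0 < q ^ i := by positivity
  rw [pow_one, pow_zero, mul_one_div, ← add_div, div_le_iff₀ hq0] at h4
  have h5 := hp (2 ^ i) Nat.one_le_two_pow
  have h6 : ((2 ^ i : ℕ) : ℝ) ^ b = q ^ i := by
    rw [hq]
    push_cast
    rw [← Real.rpow_natCast, ← Real.rpow_natCast, ← Real.rpow_mul (by norm_num), ← Real.rpow_mul (by norm_num), mul_comm]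
  rw [h6] at h5
  linarith

/-- The event of the second copy and of the first copy. -/
def BD (μ : Measure ℝ) (a e f : ℕ) (L : ℤ) (ρ u : ℝ) (x : ℤ) : Set (Env × Env) :=
  {w | u < C1 μ a e f L ρ x w} ∪ {w | u < C2 μ a e f L ρ x w}

omit [IsProbabilityMeasure μ] in
theorem BD_meas (a e f : ℕ) (L : ℤ) (ρ u : ℝ) (x : ℤ) : MeasurableSet (BD μ a e f L ρ u x) :=
  (measurableSet_lt measurable_const (measurable_Cq _ _ _ _ _)).union
    (measurableSet_lt measurable_const (measurable_Cq _ _ _ _ _))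

theorem BD_prob (hEM : Pool.Agent.W_7d29a1_h47.EM μ) {a e f r : ℕ} {L x : ℤ} {ρ u B : ℝ} (hρ : 0 ≤ ρ) (hB : 0 ≤ B)
    (hu : 0 < u)
    (h1 : ∀ y : ℤ, 0 ≤ y → y ≤ (2 * f : ℕ) → |2 * (y : ℝ) - (2 * f : ℕ)| ≤ 2 * ρ →
      0 ≤ (e : ℤ) + 2 * f + 2 * L - y ∧ (e : ℤ) + 2 * f + 2 * L - y ≤ (2 * e + 2 * f : ℕ) ∧
        ep μ (2 * e + 2 * f) ((e : ℤ) + 2 * f + 2 * L - y) ≤ B)
    (h2 : ∀ y : ℤ, 0 ≤ y → y ≤ (2 * f : ℕ) → |2 * (y : ℝ) - (2 * f : ℕ)| ≤ 2 * ρ →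
      0 ≤ (e : ℤ) + f - 2 * L - y ∧ (e : ℤ) + f - 2 * L - y ≤ (2 * e : ℕ) ∧
        ep μ (2 * e) ((e : ℤ) + f - 2 * L - y) ≤ B)
    {A : Set Env} (hA : MeasurableSet A) :
    ((law μ).prod (law μ)).real ((Ox μ a (4 * e + 4 * f) r x ×ˢ A) ∩ BD μ a e f L ρ u x) ≤
      2 * (B / u) * ((law μ).real (Ox μ a (4 * e + 4 * f) r x) * (law μ).real A) := by
  have g1 := Cq_markov (μ := μ) hEM hρ (s := sT a e L x) (le_refl (St ρ (sT a e L x))) (2 * f) (2 * e + 2 * f)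
    ((e : ℤ) + 2 * f + 2 * L) hB h1 (Ox_meas (μ := μ) a (4 * e + 4 * f) r x) hA (fun η η' hh => Ox_dep (μ := μ) x fun p hp => hh p fun hp2 => hp
      ⟨by
        have := hp2.1
        unfold sT at this
        push_cast at this
        omega, by
        have := hp2.2
        unfold sT at this
        push_cast at this ⊢
        omega⟩) hu
  have g2 := Cq_markov (μ := μ) hEM hρ (s := sT' a e f L x) (le_refl (St ρ (sT' a e f L x))) (2 * f) (2 * e)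
    ((e : ℤ) + f - 2 * L) hB h2 (Ox_meas (μ := μ) a (4 * e + 4 * f) r x) hA (fun η η' hh => Ox_dep (μ := μ) x fun p hp => hh p fun hp2 => hp
      ⟨by
        have := hp2.1
        unfold sT' at this
        push_cast at this
        omega, by
        have := hp2.2
        unfold sT' at this
        push_cast at this ⊢
        omega⟩) hu
  have g3 : (Ox μ a (4 * e + 4 * f) r x ×ˢ A) ∩ BD μ a e f L ρ u x ⊆
      ((Ox μ a (4 * e + 4 * f) r x ×ˢ A) ∩ {w : Env × Env | u < Cq μ (St ρ (sT a e L x)) w.2 w.1 (sT a e L x) (2 * f)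
        (2 * e + 2 * f) ((e : ℤ) + 2 * f + 2 * L)}) ∪
      ((Ox μ a (4 * e + 4 * f) r x ×ˢ A) ∩ {w : Env × Env | u < Cq μ (St ρ (sT' a e f L x)) w.2 w.1 (sT' a e f L x) (2 * f)
        (2 * e) ((e : ℤ) + f - 2 * L)}) := by
    intro w hw
    rcases hw.2 with h3 | h3
    · exact Or.inl ⟨hw.1, h3⟩
    · exact Or.inr ⟨hw.1, h3⟩
  have g4 := measureReal_mono (μ := (law μ).prod (law μ)) g3 (measure_ne_top _ _)
  have g5 := measureReal_union_le (μ := (law μ).prod (law μ))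
    ((Ox μ a (4 * e + 4 * f) r x ×ˢ A) ∩ {w : Env × Env | u < Cq μ (St ρ (sT a e L x)) w.2 w.1 (sT a e L x) (2 * f)
        (2 * e + 2 * f) ((e : ℤ) + 2 * f + 2 * L)})
    ((Ox μ a (4 * e + 4 * f) r x ×ˢ A) ∩ {w : Env × Env | u < Cq μ (St ρ (sT' a e f L x)) w.2 w.1 (sT' a e f L x) (2 * f)
        (2 * e) ((e : ℤ) + f - 2 * L)})
  linarith

end

end Pool.Agent.W_7d29a1_XG
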